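import Mathlib
import Pool.Agent.H961.T3.StmA

set_option autoImplicit false

namespace Pool.Agent.H122.MS

open Finset Pool.Agent.H961.T3

variable {ι : Type} [DecidableEq ι]

theorem fm_succ (f : ι → ℝ) (k : ℕ) (s : Finset ι) :
    fm f (k + 1) s = ∑ C ∈ s, f C * fm f k (s.erase C) := rfl

theorem fm_insert (f : ι → ℝ) (k : ℕ) : ∀ (s : Finset ι) (C : ι), C ∉ s →
    fm f (k + 1) (insert C s) = fm f (k + 1) s + ((k : ℝ) + 1) * f C * fm f k s := by
  induction k with
  | zero =>
    intro s C hC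
    rw [fm_succ, fm_succ, sum_insert hC]
    simp only [fm, mul_one, CharP.cast_eq_zero, zero_add, one_mul]
    ring
  | succ k ih =>
    intro s C hC
    rw [fm_succ f (k + 1) (insert C s), sum_insert hC, erase_insert hC]
    have h1 : ∑ D ∈ s, f D * fm f (k + 1) ((insert C s).erase D) =
        ∑ D ∈ s, (f D * fm f (k + 1) (s.erase D) +
          ((k : ℝ) + 1) * f C * (f D * fm f k (s.erase D))) := by
      refine sum_congr rfl fun D hD => ?_
      have hne : C ≠ D := fun h => hC (h ▸ hD)
      rw [erase_insert_of_ne hne, ih (s.erase D) C (fun h => hC (mem_of_mem_erase h))]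
      ring
    rw [h1, sum_add_distrib, ← mul_sum, ← fm_succ, ← fm_succ]
    push_cast
    ring

/-- the elementary symmetric sum -/
noncomputable def es (f : ι → ℝ) (j : ℕ) (s : Finset ι) : ℝ := fm f j s / (j.factorial : ℝ)

theorem es_zero (f : ι → ℝ) (s : Finset ι) : es f 0 s = 1 := by
  simp [es, fm]

theorem es_insert (f : ι → ℝ) (k : ℕ) (s : Finset ι) (C : ι) (hC : C ∉ s) :
    es f (k + 1) (insert C s) = es f (k + 1) s + f C * es f k s := by
  unfold es
  rw [fm_insert f k s C hC, Nat.factorial_succ]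
  have h1 : ((k.factorial : ℕ) : ℝ) ≠ 0 := Nat.cast_ne_zero.2 (Nat.factorial_ne_zero k)
  have h2 : ((k : ℝ) + 1) ≠ 0 := by positivity
  push_cast
  field_simp

/-- the partial alternating sum -/
noncomputable def tt (f : ι → ℝ) (J : ℕ) (s : Finset ι) : ℝ :=
  ∑ j ∈ range (J + 1), (-1) ^ j * es f j s

theorem tt_zero (f : ι → ℝ) (s : Finset ι) : tt f 0 s = 1 := by
  simp [tt, es_zero]

theorem tt_succ (f : ι → ℝ) (J : ℕ) (s : Finset ι) :
    tt f (J + 1) s = tt f J s + (-1) ^ (J + 1) * es f (J + 1) s := by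
  unfold tt
  rw [sum_range_succ]

theorem tt_insert (f : ι → ℝ) (J : ℕ) (s : Finset ι) (C : ι) (hC : C ∉ s) :
    tt f (J + 1) (insert C s) = tt f (J + 1) s - f C * tt f J s := by
  induction J with
  | zero =>
    rw [tt_succ, tt_succ, tt_zero, tt_zero, es_insert f 0 s C hC, es_zero]
    ring
  | succ J ih =>
    rw [tt_succ f (J + 1) (insert C s), ih, tt_succ f (J + 1) s, tt_succ f J s,
      es_insert f (J + 1) s C hC]
    ring

/-- the signed remainder -/
noncomputable def rr (f : ι → ℝ) (J : ℕ) (s : Finset ι) : ℝ :=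
  (-1) ^ (J + 1) * (∏ C ∈ s, (1 - f C) - tt f J s)

theorem rr_insert (f : ι → ℝ) (J : ℕ) (s : Finset ι) (C : ι) (hC : C ∉ s) :
    rr f (J + 1) (insert C s) = rr f (J + 1) s + f C * rr f J s := by
  unfold rr
  rw [prod_insert hC, tt_insert f J s C hC]
  ring

theorem rr_nonneg (f : ι → ℝ) (hf : ∀ C, 0 ≤ f C ∧ f C ≤ 1) (s : Finset ι) :
    ∀ J : ℕ, 0 ≤ rr f J s := by
  induction s using Finset.induction_on with
  | empty =>
    intro J
    have h1 : ∀ J : ℕ, tt f J ∅ = 1 := by
      intro J
      induction J with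
      | zero => exact tt_zero f ∅
      | succ J ih =>
        rw [tt_succ, ih]
        have h2 : es f (J + 1) ∅ = 0 := by
          unfold es
          rw [fm_succ, sum_empty, zero_div]
        rw [h2, mul_zero, add_zero]
    unfold rr
    rw [h1 J, prod_empty, sub_self, mul_zero]
  | insert C s hC ih =>
    intro J
    cases J with
    | zero =>
      unfold rr
      rw [tt_zero]
      have h2 : ∏ D ∈ insert C s, (1 - f D) ≤ 1 :=
        prod_le_one (fun D _ => by linarith [(hf D).2]) (fun D _ => by linarith [(hf D).1])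
      simp only [zero_add, pow_one]
      linarith
    | succ J =>
      rw [rr_insert f J s C hC]
      exact add_nonneg (ih (J + 1)) (mul_nonneg (hf C).1 (ih J))

theorem rr_add (f : ι → ℝ) (J : ℕ) (s : Finset ι) : rr f J s + rr f (J + 1) s = es f (J + 1) s := by
  unfold rr
  rw [tt_succ]
  have h1 : ((-1 : ℝ) ^ (J + 1)) * (-1) ^ (J + 1) = 1 := by
    rw [← mul_pow]
    norm_num
  rw [pow_succ (-1 : ℝ) (J + 1)]
  linear_combination (es f (J + 1) s) * h1

theorem bon : S_BON := by
  intro ι _ f s hf J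
  have h1 : ∑ j ∈ range (J + 1), (-1) ^ j * fm f j s / (j.factorial : ℝ) = tt f J s := by
    unfold tt es
    exact sum_congr rfl fun j _ => by rw [mul_div_assoc]
  rw [h1]
  have h2 : |∏ C ∈ s, (1 - f C) - tt f J s| = rr f J s := by
    rw [← abs_of_nonneg (rr_nonneg f hf s J)]
    unfold rr
    rw [abs_mul, abs_pow, abs_neg, abs_one, one_pow, one_mul]
  rw [h2]
  have h3 := rr_add f J s
  have h4 := rr_nonneg f hf s (J + 1)
  have h5 : fm f (J + 1) s / ((J + 1).factorial : ℝ) = es f (J + 1) s := rfl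
  rw [h5]
  linarith

end Pool.Agent.H122.MS
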